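import Mathlib

/-! Uniformly sharp closed convex sets in a real Hilbert space. -/

open scoped InnerProductSpace
open Set Metric

namespace Pool.Agent.Q178.SP

variable {H : Type*} [NormedAddCommGroup H] [InnerProductSpace ℝ H]

/-- The normal cone of `A` at `x`. -/
def normalCone (A : Set H) (x : H) : Set H := {v | ∀ a ∈ A, ⟪a - x, v⟫_ℝ ≤ 0}

/-- `A` is `α`-sharp with respect to `u`. -/
def Sharp (A : Set H) (α : ℝ) (u : H) : Prop :=
  ∀ x ∈ A, u ∉ normalCone A x → α ≤ infDist u (normalCone A x)

/-- One `α > 0` works for all unit vectors. -/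
def UniformlySharp (A : Set H) : Prop := ∃ α : ℝ, 0 < α ∧ ∀ u : H, ‖u‖ = 1 → Sharp A α u

/-- Finite intersections of closed half-spaces. -/
def Polyhedral (A : Set H) : Prop :=
  ∃ m : ℕ, 1 ≤ m ∧ ∃ (a : Fin m → H) (b : Fin m → ℝ), A = {x | ∀ j, ⟪a j, x⟫_ℝ ≤ b j}

theorem eq_zero_of_inner {v : H} (h : ⟪v, v⟫_ℝ ≤ 0) : v = 0 := by
  rw [real_inner_self_eq_norm_sq] at h
  have : ‖v‖ = 0 := by nlinarith [norm_nonneg v]
  exact norm_eq_zero.mp this

theorem zero_mem (A : Set H) (x : H) : (0 : H) ∈ normalCone A x := by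
  intro a _; simp

theorem isClosed_nc (A : Set H) (x : H) : IsClosed (normalCone A x) := by
  have : normalCone A x = ⋂ a ∈ A, {v | ⟪a - x, v⟫_ℝ ≤ 0} := by
    ext v; simp [normalCone]
  rw [this]
  refine isClosed_biInter fun a _ => ?_
  exact isClosed_le (by fun_prop) continuous_const

theorem smul_mem {A : Set H} {x v : H} (h : v ∈ normalCone A x) {t : ℝ} (ht : 0 ≤ t) :
    t • v ∈ normalCone A x := by
  intro a ha
  have := h a ha
  rw [inner_smul_right]
  exact mul_nonpos_of_nonneg_of_nonpos ht this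

theorem dich (hH : 1 < Module.rank ℝ H) {A : Set H} (hs : UniformlySharp A) {x : H} (hx : x ∈ A) :
    normalCone A x = univ ∨ normalCone A x = {0} := by
  obtain ⟨α, hα, hs⟩ := hs
  have hconn : IsPreconnected (sphere (0 : H) 1) := isPreconnected_sphere hH 0 1
  set N := normalCone A x with hN
  have hcl : IsClosed N := isClosed_nc A x
  have hcl2 : IsClosed {u : H | α ≤ infDist u N} := isClosed_le continuous_const (continuous_infDist_pt N)
  have hdis : ∀ u ∈ N, ¬ (α ≤ infDist u N) := by
    intro u hu h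
    have : infDist u N = 0 := infDist_zero_of_mem hu
    linarith
  rw [isPreconnected_closed_iff] at hconn
  have key := hconn N {u : H | α ≤ infDist u N} hcl hcl2 (by
    intro u hu
    have hu1 : ‖u‖ = 1 := by simpa using hu
    by_cases h : u ∈ N
    · exact Or.inl h
    · exact Or.inr (hs u hu1 x hx h))
  by_cases h1 : (sphere (0 : H) 1 ∩ N).Nonempty
  · by_cases h2 : (sphere (0 : H) 1 ∩ {u : H | α ≤ infDist u N}).Nonempty
    · obtain ⟨u, _, hu1, hu2⟩ := key h1 h2
      exact absurd hu2 (hdis u hu1)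
    · left
      refine eq_univ_of_forall fun v => ?_
      by_cases hv : v = 0
      · rw [hv]; exact zero_mem A x
      have hvn : 0 < ‖v‖ := norm_pos_iff.mpr hv
      have hunit : ‖(‖v‖⁻¹ • v)‖ = 1 := by
        rw [norm_smul, norm_inv, norm_norm]; field_simp
      have hmem : ‖v‖⁻¹ • v ∈ N := by
        by_contra hc
        exact h2 ⟨‖v‖⁻¹ • v, by simpa using hunit, hs _ hunit x hx hc⟩
      have := smul_mem hmem hvn.le
      rwa [smul_smul, mul_inv_cancel₀ hvn.ne', one_smul] at this
  · right
    refine Subset.antisymm (fun v hv => ?_) (by rintro _ rfl; exact zero_mem A x)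
    by_contra hv0
    have hv0' : v ≠ 0 := hv0
    have hvn : 0 < ‖v‖ := norm_pos_iff.mpr hv0'
    apply h1
    refine ⟨‖v‖⁻¹ • v, ?_, smul_mem hv (by positivity)⟩
    have hunit : ‖(‖v‖⁻¹ • v)‖ = 1 := by
      rw [norm_smul, norm_inv, norm_norm]; field_simp
    simpa using hunit

theorem univ_sharp : UniformlySharp (univ : Set H) := by
  refine ⟨1, one_pos, fun u hu x _ _ => ?_⟩
  have : normalCone (univ : Set H) x = {0} := by
    refine Subset.antisymm (fun v hv => ?_) (by rintro _ rfl; exact zero_mem _ x)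
    have := hv (x + v) (mem_univ _)
    rw [add_sub_cancel_left] at this
    exact eq_zero_of_inner this
  rw [this, infDist_singleton, dist_zero_right, hu]

theorem singleton_sharp (x : H) : UniformlySharp ({x} : Set H) := by
  refine ⟨1, one_pos, fun u _ y hy h => ?_⟩
  exfalso
  apply h
  intro a ha
  have h1 : a = x := ha
  have h2 : y = x := hy
  rw [h1, h2]; simp

theorem classify [CompleteSpace H] (hH : 1 < Module.rank ℝ H) {A : Set H} (hne : A.Nonempty)
    (hc : IsClosed A) (hconv : Convex ℝ A) :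
    UniformlySharp A ↔ A = univ ∨ ∃ x, A = {x} := by
  constructor
  · intro hs
    by_cases hall : ∀ x ∈ A, normalCone A x = {0}
    · left
      refine eq_univ_of_forall fun y => ?_
      obtain ⟨x, hx, hxy⟩ := exists_norm_eq_iInf_of_complete_convex hne hc.isComplete hconv y
      rw [norm_eq_iInf_iff_real_inner_le_zero hconv hx] at hxy
      have hmem : y - x ∈ normalCone A x := by
        intro a ha
        rw [real_inner_comm]
        exact hxy a ha
      rw [hall x hx] at hmem
      have : y - x = 0 := hmem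
      rw [sub_eq_zero.mp this]
      exact hx
    · right
      push Not at hall
      obtain ⟨x, hx, hn⟩ := hall
      have hu : normalCone A x = univ := (dich hH hs hx).resolve_right hn
      refine ⟨x, Subset.antisymm (fun a ha => ?_) (by rintro _ rfl; exact hx)⟩
      have : a - x ∈ normalCone A x := by rw [hu]; exact mem_univ _
      have h0 := this a ha
      exact sub_eq_zero.mp (eq_zero_of_inner h0)
  · rintro (rfl | ⟨x, rfl⟩)
    · exact univ_sharp
    · exact singleton_sharp x

theorem not_poly_singleton (hH : ¬ FiniteDimensional ℝ H) (x : H) :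
    ¬ Polyhedral ({x} : Set H) := by
  rintro ⟨m, -, a, b, h⟩
  set K : Submodule ℝ H := Submodule.span ℝ (range a) with hK
  have hfin : FiniteDimensional ℝ K := FiniteDimensional.span_of_finite ℝ (finite_range a)
  have hKne : Kᗮ ≠ ⊥ := by
    intro hbot
    have : K = ⊤ := by
      have := Submodule.orthogonal_orthogonal K
      rw [← this, hbot, Submodule.bot_orthogonal_eq_top]
    apply hH
    rw [this] at hfin
    exact Module.finite_def.mpr ((Submodule.fg_top ⊤).mp (Module.finite_def.mp hfin) )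
  obtain ⟨z, hz, hz0⟩ := Submodule.exists_mem_ne_zero_of_ne_bot hKne
  have hx : x ∈ {x | ∀ j, ⟪a j, x⟫_ℝ ≤ b j} := by rw [← h]; exact mem_singleton _
  have hxz : x + z ∈ {x | ∀ j, ⟪a j, x⟫_ℝ ≤ b j} := by
    intro j
    rw [inner_add_right, (Submodule.mem_orthogonal _ _).mp hz (a j) (Submodule.subset_span ⟨j, rfl⟩), add_zero]
    exact hx j
  rw [← h] at hxz
  have : x + z = x := hxz
  exact hz0 (by simpa using this)


theorem poly_univ : Polyhedral (univ : Set H) :=
  ⟨1, le_rfl, fun _ => 0, fun _ => 0, by ext; simp⟩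

theorem poly_singleton [FiniteDimensional ℝ H] (x : H) : Polyhedral ({x} : Set H) := by
  set n := Module.finrank ℝ H with hn
  let e := stdOrthonormalBasis ℝ H
  refine ⟨n + n + 1, by omega,
    fun j => if h : (j : ℕ) < n then e ⟨j, h⟩ else
      if h2 : (j : ℕ) - n < n then - e ⟨j - n, h2⟩ else 0,
    fun j => if h : (j : ℕ) < n then ⟪e ⟨j, h⟩, x⟫_ℝ else
      if h2 : (j : ℕ) - n < n then - ⟪e ⟨j - n, h2⟩, x⟫_ℝ else 0, ?_⟩
  refine Subset.antisymm ?_ ?_
  · rintro _ rfl j
    dsimp only
    split_ifs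
    · exact le_rfl
    · rw [inner_neg_left]
    · simp
  · intro y hy
    have key : ∀ i : Fin n, ⟪e i, y⟫_ℝ = ⟪e i, x⟫_ℝ := by
      intro i
      have h1 := hy ⟨i, by omega⟩
      have h2 := hy ⟨i + n, by omega⟩
      simp only [i.isLt, dite_true] at h1
      have h3 : ¬ ((i : ℕ) + n < n) := by omega
      have h4 : (i : ℕ) + n - n < n := by omega
      simp only [h3, dite_false, h4, dite_true] at h2
      have h5 : (⟨(i : ℕ) + n - n, h4⟩ : Fin n) = i := by ext; simp
      rw [h5, inner_neg_left] at h2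
      linarith
    have : y = x := by
      apply e.repr.injective
      ext i
      rw [e.repr_apply_apply, e.repr_apply_apply, key i]
    exact this

theorem poly_line {e : H} (he : ‖e‖ = 1) (hs : ∀ x : H, ∃ t : ℝ, x = t • e) {A : Set H}
    (hne : A.Nonempty) (hc : IsClosed A) (hconv : Convex ℝ A) : Polyhedral A := by
  classical
  set B : Set ℝ := {t | t • e ∈ A} with hB
  have hee : ⟪e, e⟫_ℝ = 1 := by rw [real_inner_self_eq_norm_sq, he]; norm_num
  have hBc : IsClosed B := hc.preimage (by fun_prop : Continuous fun t : ℝ => t • e)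
  have hBconv : Convex ℝ B := by
    intro s hs t ht a b ha hb hab
    have := hconv hs ht ha hb hab
    show (a • s + b • t) • e ∈ A
    rw [add_smul, smul_eq_mul, smul_eq_mul, mul_smul, mul_smul]
    exact this
  have hBne : B.Nonempty := by
    obtain ⟨x, hx⟩ := hne
    obtain ⟨t, rfl⟩ := hs x
    exact ⟨t, hx⟩
  have hord : B.OrdConnected := hBconv.ordConnected
  have hmem : ∀ t : ℝ, t ∈ B ↔ (BddAbove B → t ≤ sSup B) ∧ (BddBelow B → sInf B ≤ t) := by
    intro t
    constructor
    · intro ht
      exact ⟨fun h => le_csSup h ht, fun h => csInf_le h ht⟩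
    · rintro ⟨h1, h2⟩
      have hup : ∃ s ∈ B, t ≤ s := by
        by_cases hb : BddAbove B
        · exact ⟨sSup B, hBc.csSup_mem hBne hb, h1 hb⟩
        · rw [not_bddAbove_iff] at hb
          obtain ⟨s, hs, hts⟩ := hb t
          exact ⟨s, hs, hts.le⟩
      have hlo : ∃ s ∈ B, s ≤ t := by
        by_cases hb : BddBelow B
        · exact ⟨sInf B, hBc.csInf_mem hBne hb, h2 hb⟩
        · rw [not_bddBelow_iff] at hb
          obtain ⟨s, hs, hts⟩ := hb t
          exact ⟨s, hs, hts.le⟩
      obtain ⟨s1, hs1, h3⟩ := hup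
      obtain ⟨s2, hs2, h4⟩ := hlo
      exact hord.out hs2 hs1 ⟨h4, h3⟩
  refine ⟨2, by norm_num,
    ![if BddAbove B then e else 0, if BddBelow B then -e else 0],
    ![if BddAbove B then sSup B else 0, if BddBelow B then -sInf B else 0], ?_⟩
  ext x
  obtain ⟨t, rfl⟩ := hs x
  have h0 : t • e ∈ A ↔ t ∈ B := Iff.rfl
  rw [h0, hmem t]
  simp only [mem_ofPred_eq, Fin.forall_fin_two, Matrix.cons_val_zero, Matrix.cons_val_one]
  by_cases hb1 : BddAbove B <;> by_cases hb2 : BddBelow B <;>
    simp [hb1, hb2, inner_smul_right, he, inner_neg_left]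

theorem finite_dim [FiniteDimensional ℝ H] {A : Set H} (hne : A.Nonempty) (hc : IsClosed A)
    (hconv : Convex ℝ A) (hs : UniformlySharp A) : Polyhedral A := by
  have : CompleteSpace H := FiniteDimensional.complete ℝ H
  by_cases hH : 1 < Module.rank ℝ H
  · rcases (classify hH hne hc hconv).mp hs with rfl | ⟨x, rfl⟩
    · exact poly_univ
    · exact poly_singleton x
  · by_cases h0 : ∃ v : H, v ≠ 0
    · obtain ⟨v, hv⟩ := h0
      have h1 : Module.rank ℝ H ≤ 1 := not_lt.mp hH
      rw [rank_le_one_iff] at h1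
      obtain ⟨w, hw⟩ := h1
      have hw0 : w ≠ 0 := by
        rintro rfl
        obtain ⟨r, hr⟩ := hw v
        exact hv (by rw [← hr, smul_zero])
      have hwn : 0 < ‖w‖ := norm_pos_iff.mpr hw0
      refine poly_line (e := ‖w‖⁻¹ • w) ?_ ?_ hne hc hconv
      · rw [norm_smul, norm_inv, norm_norm]; field_simp
      · intro x
        obtain ⟨r, hr⟩ := hw x
        refine ⟨r * ‖w‖, ?_⟩
        rw [smul_smul, mul_assoc, mul_inv_cancel₀ hwn.ne', mul_one, hr]
    · push Not at h0
      have : A = univ := by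
        obtain ⟨x, hx⟩ := hne
        refine eq_univ_of_forall fun y => ?_
        rw [h0 y, ← h0 x]; exact hx
      rw [this]; exact poly_univ

end Pool.Agent.Q178.SP
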